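import Pool.Agent.Lib.SRSard.Final
import Pool.Agent.Lib.SRSard.Nilp
import Pool.Agent.Lib.SRSard.Statement

/-!
# A simply connected polarized Lie group whose abnormal set has nonempty interior

The group is `SRSard.SG` (`ℝ²²` with a polynomial group law, see `Lib/SRSard/README.md` for the
complete proof in words).  The definitions used by the statement are in `Lib/SRSard/Statement.lean`.
-/

namespace Pool.Agent.Results.MP_525deb_gt.AbnormalInterior

open SRS
open scoped Manifold ContDiff

theorem bracketGenerating_bas : BracketGenerating (E := SRSard.SG) (G := SRSard.SG) SRSard.bas := by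
  intro W hadd hsmul hbr hb x
  let S : Submodule ℝ (GroupLieAlgebra 𝓘(ℝ, SRSard.SG) SRSard.SG) :=
    { carrier := W
      add_mem' := fun {a b} ha hb => hadd a ha b hb
      zero_mem' := by
        have h := hsmul 0 _ (hb 0)
        rwa [zero_smul] at h
      smul_mem' := fun c a ha => hsmul c a ha }
  have hS : S = ⊤ := by
    refine SRSard.bracketGenerating S ?_ ?_
    · rw [Submodule.span_le]
      rintro _ ⟨j, rfl⟩
      exact hb j
    · intro a ha c hc
      exact hbr a ha c hc
  have hx : x ∈ S := by rw [hS]; trivial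
  exact hx

/-- The endpoint map of `SG`. -/
noncomputable def endMap : SRS.Controls 7 → SRSard.SG := SRSard.End

theorem isEndpointMap_endMap :
    IsEndpointMap (E := SRSard.SG) (G := SRSard.SG) SRSard.bas endMap := by
  obtain ⟨h1, h2⟩ := SRSard.isEndpointMap_End
  refine ⟨h1, ?_⟩
  intro w
  obtain ⟨γ, hγ, hγ1⟩ := h2 w
  exact ⟨γ, hγ, hγ1⟩

theorem abn_eq : Abn SRSard.SG endMap = SRSard.Abn 𝓘(ℝ, SRSard.SG) SRSard.End := by
  ext q
  constructor
  · rintro ⟨w, hw, hc⟩
    exact ⟨w, hw, hc⟩
  · rintro ⟨w, hw, hc⟩
    exact ⟨w, hw, hc⟩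

/-- **There is a simply connected nilpotent polarized Lie group for which the set `Abn(e)` of
endpoints of abnormal curves has nonempty interior.** -/
theorem result : ∃ (E : Type) (_ : NormedAddCommGroup E) (_ : NormedSpace ℝ E)
    (_ : FiniteDimensional ℝ E) (G : Type) (_ : TopologicalSpace G) (_ : ChartedSpace E G)
    (_ : Group G) (_ : LieGroup 𝓘(ℝ, E) ∞ G) (m : ℕ) (b : Fin m → GroupLieAlgebra 𝓘(ℝ, E) G)
    (Φ : Controls m → G),
    SimplyConnectedSpace G ∧ T2Space G ∧ Group.IsNilpotent G ∧
    BracketGenerating b ∧ IsEndpointMap b Φ ∧ (interior (Abn E Φ)).Nonempty :=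
  ⟨SRSard.SG, inferInstance, inferInstance, inferInstance, SRSard.SG, inferInstance, inferInstance,
    inferInstance, inferInstance, 7, SRSard.bas, endMap, inferInstance, inferInstance,
    inferInstance, bracketGenerating_bas, isEndpointMap_endMap,
    by rw [abn_eq]; exact SRSard.interior_abn⟩

end Pool.Agent.Results.MP_525deb_gt.AbnormalInterior
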